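import Pool.Agent.NH97.OD.FIN

/-!
# A complete flat metric of the disc in orthogonal coordinates

There are smooth positive functions `E`, `G` on the open unit disc such that the metric
`E du² + G dv²` is flat and complete: it is the pull-back of the Euclidean metric under a smooth
bijection of the disc onto the plane.
-/

set_option autoImplicit false

open scoped ContDiff Topology

namespace Pool.Agent.Results.MP_a5fed0_gt.OrthogonalDisc

open Set Filter

/-- the open unit disc -/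
def D : Set (ℝ × ℝ) := {q | q.1 ^ 2 + q.2 ^ 2 < 1}

/-- the length of the curve `γ` on `[0, 1]` for the metric `E du² + G dv²` -/
noncomputable def len (E G : ℝ × ℝ → ℝ) (γ : ℝ → ℝ × ℝ) : ℝ :=
  ∫ t in (0 : ℝ)..1, √(E (γ t) * (deriv γ t).1 ^ 2 + G (γ t) * (deriv γ t).2 ^ 2)

/-- the length distance of the metric `E du² + G dv²` on the disc: the infimum of the lengths of the
curves of class `C¹` in the disc from `p` to `q` -/
noncomputable def dis (E G : ℝ × ℝ → ℝ) (p q : ℝ × ℝ) : ℝ :=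
  sInf {L : ℝ | ∃ γ : ℝ → ℝ × ℝ, ContDiff ℝ 1 γ ∧ (∀ t ∈ Icc (0 : ℝ) 1, γ t ∈ D) ∧ γ 0 = p ∧
    γ 1 = q ∧ L = len E G γ}

/-- completeness: every Cauchy sequence of points of the disc for the length distance converges to a
point of the disc -/
def Complete (E G : ℝ × ℝ → ℝ) : Prop := ∀ s : ℕ → ℝ × ℝ, (∀ n, s n ∈ D) →
  (∀ ε : ℝ, 0 < ε → ∃ N : ℕ, ∀ m n : ℕ, N ≤ m → N ≤ n → dis E G (s m) (s n) < ε) →
  ∃ q ∈ D, Tendsto (fun n => dis E G (s n) q) atTop (𝓝 0)

/-- There are functions `E`, `G` of class `C^∞` and positive on the disc `D` for which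
* the metric `E du² + G dv²` is complete;
* there are `C^∞` functions `X`, `Y` on `D` such that `(X, Y)` is a bijection of `D` onto the plane and
  `dX² + dY² = E du² + G dv²` on `D` (so the metric is flat: `(X, Y)` is an isometry onto the Euclidean
  plane);
* the length distance is the Euclidean distance of the images under `(X, Y)`. -/
theorem result : ∃ E G X Y : ℝ × ℝ → ℝ, ContDiffOn ℝ ∞ E D ∧ ContDiffOn ℝ ∞ G D ∧
    (∀ p ∈ D, 0 < E p ∧ 0 < G p) ∧ Complete E G ∧
    ContDiffOn ℝ ∞ X D ∧ ContDiffOn ℝ ∞ Y D ∧ BijOn (fun p => (X p, Y p)) D univ ∧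
    (∀ p ∈ D, ∀ v w : ℝ × ℝ, fderiv ℝ X p v * fderiv ℝ X p w +
      fderiv ℝ Y p v * fderiv ℝ Y p w = E p * v.1 * w.1 + G p * v.2 * w.2) ∧
    ∀ p ∈ D, ∀ q ∈ D, dis E G p q = √((X p - X q) ^ 2 + (Y p - Y q) ^ 2) :=
  Pool.Agent.NH97.OD.final Pool.Agent.NH97.OD.s_plane

end Pool.Agent.Results.MP_a5fed0_gt.OrthogonalDisc
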